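import Pool.Agent.R871.SG.LogJ

/-!
MP_8d161d_ag, Q1: entire curves, holomorphic annuli and the locus of the rational curves of bounded
degree.
-/

set_option autoImplicit false

namespace Pool.Agent.Results.MP_8d161d_ag.RationalLocus

open Pool.Agent.R871.SG MvPolynomial Filter Topology

/-- Let `X` be a closed subset of `ℙⁿ` (given by its cone), for instance a projective variety, let `d` be
a natural number and let `Z_d` be the union of the images of all nonconstant algebraic maps of degree at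
most `d` from the affine line to `X` (the union of the rational curves of degree at most `d`).

(1) `Z_d` is closed.

(2) For every `ε > 0` there is `δ > 0` such that the following holds for every holomorphic map `F` from
an annulus to `X`, given by homogeneous coordinates without common zeros with the Laurent series
`∑ a_m z^m`. If the series has two `δ`-isolated terms, of index `j` on the circle of radius `r` and of
index `k` on the circle of radius `ρ`, with `r < ρ` and `j < k ≤ j + d`, then `F` maps both circles into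
the `ε`-neighbourhood of `Z_d`.

(3) For every `ε > 0` there is `R > 1` such that the following holds for every holomorphic map `F` from
the outside of a disc to `X` whose homogeneous coordinates have infinitely many nonzero Laurent
coefficients of positive index. Either the central index increases by more than `d` between the radii
`r` and `R r`, for arbitrarily large `r`, or for every large `r` there is a circle of radius between `r`
and `R r` which `F` maps into the `ε`-neighbourhood of `Z_d`.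

(4) Let `f` be an entire curve in `X`, with homogeneous coordinates `∑ a_m z^m` without common zeros,
such that all vectors `a_m` are nonzero and `‖a_m‖ ‖a_{m+2}‖ / ‖a_{m+1}‖²` tends to zero. Then for every
`ε > 0` there are arbitrarily large circles around the origin which `f` maps into the
`ε`-neighbourhood of the union `Z_1` of the lines in `X`. -/
theorem result {n : ℕ} {X : Set (Fin (n + 1) → ℂ)} (hX : IsClosed X)
    (hs : ∀ (a : ℂ), ∀ x ∈ X, a • x ∈ X) (d : ℕ) :
    IsClosed (lineSet X d) ∧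
    (∀ ε > 0, ∃ δ : ℝ, 0 < δ ∧ ∀ (R₀ R₁ : ℝ) (F : ℂ → Fin (n + 1) → ℂ) (a : ℤ → Fin (n + 1) → ℂ),
      LaurentIn X 1 R₀ R₁ F a → ∀ (j k : ℤ) (r ρ : ℝ), j < k → k ≤ j + d → 0 < r → r < ρ →
        R₀ < r → ρ < R₁ → IsolatedZ a δ j r → IsolatedZ a δ k ρ →
        ∀ z : ℂ, (‖z‖ = r ∨ ‖z‖ = ρ) → ∃ x ∈ lineSet X d, ‖F z - x‖ ≤ ε * ‖F z‖) ∧
    (∀ ε > 0, ∃ R : ℝ, 1 < R ∧ ∀ (R₀ : ℝ) (F : ℂ → Fin (n + 1) → ℂ) (a : ℤ → Fin (n + 1) → ℂ),
      LaurentTop X 1 R₀ F a → (∀ D : ℤ, ∃ m > D, a m ≠ 0) →
      (∀ r₀, ∃ r : ℝ, r₀ < r ∧ upperIndexZ a r + d < upperIndexZ a (R * r)) ∨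
      ∃ r₀, ∀ r : ℝ, r₀ < r → ∃ ρ : ℝ, r < ρ ∧ ρ < R * r ∧
        ∀ z : ℂ, ‖z‖ = ρ → ∃ x ∈ lineSet X d, ‖F z - x‖ ≤ ε * ‖F z‖) ∧
    ∀ f : ℂ → Fin (n + 1) → ℂ, HolIn X f → (∀ m, coef f 0 m ≠ 0) →
      Tendsto (fun m => ‖coef f 0 m‖ * ‖coef f 0 (m + 2)‖ / ‖coef f 0 (m + 1)‖ ^ 2) atTop (𝓝 0) →
      ∀ ε > 0, ∀ r₀ : ℝ, ∃ ρ : ℝ, r₀ < ρ ∧
        ∀ z : ℂ, ‖z‖ = ρ → ∃ x ∈ lineSet X 1, ‖f z - x‖ ≤ ε * ‖f z‖ := by
  refine ⟨lineSet_closed' hX hs d, fun ε hε => ?_, fun ε hε => ?_, fun f hf ha ht ε hε r₀ =>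
    ratio_circles hX hs hf ha ht hε r₀⟩
  · obtain ⟨δ, hδ0, -, h⟩ := locus_circles hX hs d hε
    exact ⟨δ, hδ0, h⟩
  · obtain ⟨δ, hδ0, hδ1, h⟩ := locus_circles hX hs d hε
    exact log_central_top hδ0 hδ1 h

end Pool.Agent.Results.MP_8d161d_ag.RationalLocus
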