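import Pool.Agent.R393.SC.Fin
import Pool.Agent.R393.SC.Conv

set_option autoImplicit false

/-!
# The strong Green-Griffiths-Lang conjecture for entire curves given by iterated linear differential
equations of bounded complexity

Let `X` be an integral closed subvariety of projective `n`-space over a countable field `k`, given
by homogeneous equations `F ∈ FF`.  (Every complex projective variety is defined over a countable
subfield `k` of `ℂ`, and then the inclusion is one of the embeddings `σ` below.)

**Complexity.**  An entire curve with homogeneous coordinates `x(z)` has complexity `(s, r, e)`
(`CurveVec s r e x`) if there are entire functions `X_1, …, X_s` with values in the invertible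
`r × r` matrices over `ℂ` such that

* `X_l' = M_l X_l`, where the entries of `M_l` are values of polynomials with complex coefficients,
  of degree at most `e` in each variable, at the entries of `X_i`, `X_i⁻¹`, `i < l`, and
* the coordinates of `x(z)` are values of such polynomials at the entries of all `X_i`, `X_i⁻¹`,
  `i ≤ s`.

So `X_1 = exp (z M_1) C`, the coefficients of the equation for `X_2` are exponential polynomials,
`X_2` can contain iterated exponentials, Airy and Mathieu functions, and so on.  For `s = 1` the
coordinates are exponential polynomials with arbitrary complex frequencies.

**Theorem.** (1) If `X` is not uniruled (for instance, if `X` is of general type and of positive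
dimension), then for all `s, r, e` there is ONE proper closed subset `X ∩ {G = 0}` of `X`, defined
over `k`, which contains ALL nonconstant entire curves of complexity `(s, r, e)` in the complex
varieties `X^σ`, for all embeddings `σ` of `k` in `ℂ`.

(2) If `X` is uniruled (and `k` has characteristic zero) this fails: some `X^σ` contains a
nonconstant curve of complexity `(1, 2, e)`, for some `e`, with polynomial coordinates, and a point
of this curve is not contained in any proper closed subset of `X` which is defined over `k`.

So for each complexity the strong Green-Griffiths-Lang statement (one proper algebraic subset which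
contains all the entire curves of this complexity) holds for `X` of general type, and it
characterizes the varieties which are not uniruled.  For a single Zariski-dense curve the result
(without bound for the complexity) is in `MP_2a5ae2_ag.IteratedLinearEquations`; a single curve says
nothing about the union of infinitely many algebraically degenerate curves, for instance about the
curves with different frequencies or different coefficients of the equations.

The proof takes counterexamples for all `G`, moves them to centres where nothing degenerates,
and applies a homomorphism from sequences of complex numbers to complex numbers to their Taylor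
series.  The limit is a solution of iterated linear differential equations in the field of formal
Laurent series which is a generic point of `X` over `k` and is not constant, and the theorem on
iterated Picard-Vessiot towers of `Pool.Agent.Y377` applies to this field.
-/

namespace Pool.Agent.Results.MP_8d161d_ag.StrongIteratedCurves

open MvPolynomial Pool.Agent.H533R3.SL Pool.Agent.R393.SC

/-- **The strong Green-Griffiths-Lang statement for curves of bounded complexity, and its
converse.** -/
theorem result :
    (∀ (k : Type) [Field k] [Countable k] (n : ℕ) (FF : Set (MvPolynomial (Fin (n + 1)) k)),
      (∀ F ∈ FF, ∃ d, F.IsHomogeneous d) → (Ideal.span FF).IsPrime →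
      ¬ Uniruled (Ideal.span FF) → ∀ s r e : ℕ,
      ∃ G : MvPolynomial (Fin (n + 1)) k, (∃ d, G.IsHomogeneous d) ∧ G ∉ Ideal.span FF ∧
        ∀ (σ : k →+* ℂ) (x : ℂ → Fin (n + 1) → ℂ), CurveVec s r e x →
          (∀ z, ∀ F ∈ FF, eval₂ σ (x z) F = 0) →
          (∃ z w i j, x z i * x w j ≠ x z j * x w i) → ∀ z, eval₂ σ (x z) G = 0) ∧
    (∀ (k : Type) [Field k] [CharZero k] [Countable k] (n : ℕ)
      (FF : Set (MvPolynomial (Fin (n + 1)) k)), Uniruled (Ideal.span FF) →
      ∃ (e : ℕ) (σ : k →+* ℂ) (x : ℂ → Fin (n + 1) → ℂ), CurveVec 1 2 e x ∧
        (∀ z, ∀ F ∈ FF, eval₂ σ (x z) F = 0) ∧
        (∃ z w i j, x z i * x w j ≠ x z j * x w i) ∧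
        ∃ z, ∀ G : MvPolynomial (Fin (n + 1)) k, (∃ d, G.IsHomogeneous d) →
          G ∉ Ideal.span FF → eval₂ σ (x z) G ≠ 0) := by
  refine ⟨fun _ _ _ _ FF hhom hprime hnu s r e => strong_curve FF hhom hprime hnu s r e,
    fun _ _ _ _ _ FF hu => ?_⟩
  obtain ⟨e, σ, x, h1, h2, h3, h4⟩ := converse (Ideal.span FF) hu
  exact ⟨e, σ, x, h1, fun z F hF => h2 z F (Ideal.subset_span hF), h3, h4⟩

end Pool.Agent.Results.MP_8d161d_ag.StrongIteratedCurves
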