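import Mathlib
import Pool.Agent.R849.FQ.Hol

set_option autoImplicit false

/-!
# The Green-Griffiths-Lang conjecture for the curves whose coordinates are sums of few high powers

MP_8d161d_ag, Q1: for all smooth projective varieties `X` of general type, and all pairs `(X, D)` of
log general type (the components of `D` being hypersurface sections), and every number `r`, there is
ONE proper closed subset of `X` which contains all transcendental entire curves whose homogeneous
coordinates are, near infinity, sums of `r` terms `ρ e h ^ M`, with `ρ` meromorphic at infinity, `e`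
without zeros, `h` arbitrary, and `M` large. The conditions on the pair are those of the starting
file `SparseCurves` of MP_70ba79_ag (`OnX`, `DimGE`, `SmoothPair`, `Irred`, `LogGeneralType`).
-/

namespace Pool.Agent.Results.MP_8d161d_ag.SumsOfPowersGGL

open MvPolynomial Pool.Agent.R849.FQ
open Pool.Agent.Results.MP_70ba79_ag.SparseCurves hiding result

/-- Let `X` be a smooth irreducible projective variety of dimension `N` in `P^n` (`n = N + s`) with
the equations `G j = 0`, `deg G j ≤ δ`. Let `D` be a divisor with strict normal crossings on `X`,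
whose components `D_i` are given by forms `E i` of degrees `d i`, `∑ d i ≤ δ` (for `q = 0`: `D` is
empty), such that `X - D` is of log general type. Let `r` be a number. Then there is a form `Φ` which
does not vanish on `X` such that for all `M ≥ (δ + 2) ^ (2 (r + 1))`:

(1) all transcendental entire curves in `X`, not inside `D`, whose homogeneous coordinates are, near
infinity, sums of `r` terms `ρ e h ^ M`, and for which every `E i` is `e h ^ M` near infinity, lie in
`Φ = 0`;

(2) the same for the holomorphic maps from the punctured disc with an essential singularity. -/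
theorem result {N s n g q δ : ℕ} (hn : n + 1 = N + 1 + s)
    (G : Fin g → MvPolynomial (Fin (n + 1)) ℂ) (e : Fin g → ℕ)
    (hG : ∀ j, (G j).IsHomogeneous (e j)) (he : ∀ j, e j ≤ δ)
    (E : Fin q → MvPolynomial (Fin (n + 1)) ℂ) (d : Fin q → ℕ)
    (hE : ∀ i, (E i).IsHomogeneous (d i)) (hd : ∑ i, d i ≤ δ)
    (hdim : DimGE N G) (hsm : SmoothPair s G (fun i (_ : Fin 1) => E i)) (hirr : Irred G)
    (hlgt : LogGeneralType N G (fun i (_ : Fin 1) => E i) (fun i _ => d i)) (r : ℕ) :
    ∃ (Φ : MvPolynomial (Fin (n + 1)) ℂ) (a : ℕ), Φ.IsHomogeneous a ∧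
      (∃ z : Fin (n + 1) → ℂ, OnX G z ∧ aeval z Φ ≠ 0) ∧
      ∀ (M : ℕ), (δ + 2) ^ (2 * (r + 1)) ≤ M →
        (∀ f, TransCurve G E r M f → ∀ z, eval (f z) Φ = 0) ∧
        ∀ f, EssCurve G E r M f → ∀ w : ℂ, w ≠ 0 → ‖w‖ < 1 → eval (f w) Φ = 0 := by
  obtain ⟨Φ, a, B, hΦ, hΦX, hB⟩ := exists_bound (r := r) hn G e hG (fun i (_ : Fin 1) => E i)
    (fun i _ => d i) (fun i _ => hE i) hdim hsm hirr hlgt
  exact ⟨Φ, a, hΦ, hΦX, fun M hM => ⟨fun f hf z => trans_in hM hG he hE hd hB f hf z,
    fun f hf => ess_in hM hG he hE hd hB f hf⟩⟩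

end Pool.Agent.Results.MP_8d161d_ag.SumsOfPowersGGL
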