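import Pool.Agent.Y377.IL.AllC
import Pool.Agent.TH600.LK.Ell
import Pool.Agent.Y189.DC.Fin
import Pool.Agent.TH182.VI.Main

/-!
# Entire curves in very general intersections on an arbitrary projective variety

Let `X ⊂ ℙ^N` be a projective algebraic set of dimension at most `m` and let `D_1, …, D_q` be very
general hypersurface sections of `X` of degrees `d_1, …, d_q` with `d_1 + … + d_q + q ≥ 2 m + 1`.
Three classes of entire curves in `Y = D_1 ∩ … ∩ D_q` are considered: the curves given by iterated
linear differential equations, the curves built by exponentials, integrations, algebraic operations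
and gap series, and the curves given by linear functional equations. All of them are constant (for
translations: constant or periodic).
-/

set_option autoImplicit false

namespace Pool.Agent.Results.MP_8d161d_ag.TranscendentalClasses

open Filter MvPolynomial
open scoped LinearAlgebra.Projectivization
open Pool.Agent.TH143.EL (TrOne HolMap InV Rep TorusMapsIn)
open Pool.Agent.Y377.IL (IterLin IteratedOver iter_main)
open Pool.Agent.TH600.LK (TowFun TowRing tow_main)
open Pool.Agent.Y189.DC (NCE Base FunEq)
open Pool.Agent.TH182.VD (CI)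

variable {N : ℕ} {ι : Type}

/-- Entire curves given by iterated linear differential equations over a ring `B` of meromorphic
functions which is closed under differentiation and of transcendence degree at most one. -/
def IteratedCurve (f : ℂ → ℙ ℂ (Fin (N + 1) → ℂ)) : Prop :=
  ∃ B : Subalgebra ℂ (ℂ → ℂ), TrOne B ∧ IteratedOver B f

/-- Entire curves with homogeneous coordinates in the ring generated by the tower functions over a
differential ring `B` of meromorphic functions of transcendence degree at most one, and by the gap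
series in a nonconstant entire tower function `ψ` over `B`. -/
def TowerCurve (f : ℂ → ℙ ℂ (Fin (N + 1) → ℂ)) : Prop :=
  ∃ (B : Subalgebra ℂ (ℂ → ℂ)) (ψ : ℂ → ℂ), TrOne B ∧ TowFun B ψ ∧ Differentiable ℂ ψ ∧
    (∃ z w, ψ z ≠ ψ w) ∧ ∃ h : ℂ → Fin (N + 1) → ℂ, (∀ j, (fun z => h z j) ∈ TowRing B ψ) ∧
      ∀ᶠ z in codiscrete ℂ, Rep (f z) (h z)

/-- The entire curve `f` is given by linear functional equations with respect to `σ`: Here `σ` is a
nonconstant entire function, no iterate `σ^k`, `k > 0`, of which is the identity (`NCE σ`: `σ` is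
entire and not constant). The curve has homogeneous coordinates `h j` which are meromorphic
functions on the plane, each of them satisfying a nontrivial linear functional equation
`∑ a_k(z) h(σ^k(z)) = 0` (`FunEq σ U (h j)`), whose coefficients are polynomials in finitely many
meromorphic functions `u` in `U`. The field generated by `U` is closed under the composition with
`σ` and has transcendence degree at most one over the constants (`Base σ U`). -/
def FunctionalCurve (σ : ℂ → ℂ) (f : ℂ → ℙ ℂ (Fin (N + 1) → ℂ)) : Prop :=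
  NCE σ ∧ (∀ k, 0 < k → ∃ z, σ^[k] z ≠ z) ∧ ∃ U : Set (ℂ → ℂ), Base σ U ∧
    ∃ h : Fin (N + 1) → ℂ → ℂ, (∀ j, Meromorphic (h j)) ∧ (∀ j, FunEq σ U (h j)) ∧
      ∀ᶠ z in codiscrete ℂ, Rep (f z) fun j => h j z

/-- the map `f` from the plane to the projective space has its image in `{F = 0}` -/
def LiesIn (F : ι → MvPolynomial (Fin (N + 1)) ℂ) (f : ℂ → ℙ ℂ (Fin (N + 1) → ℂ)) : Prop :=
  ∀ i z, eval (f z).rep (F i) = 0

/-- Entire curves of three classes in the projective algebraic set `Y = {F = 0}`. -/
structure Hyperbolic (F : ι → MvPolynomial (Fin (N + 1)) ℂ) : Prop where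
  /-- Entire curves in `Y` given by iterated linear differential equations are constant. -/
  iterated : ∀ f : ℂ → ℙ ℂ (Fin (N + 1) → ℂ), HolMap f → IteratedCurve f → LiesIn F f →
    ∀ z w, f z = f w
  /-- Tower curves in `Y` are constant. -/
  tower : ∀ f : ℂ → ℙ ℂ (Fin (N + 1) → ℂ), HolMap f → TowerCurve f → LiesIn F f →
    ∀ z w, f z = f w
  /-- If a nonconstant entire curve `f` in `Y` is given by linear functional equations with respect
  to `σ`, then `σ` is a translation, and a multiple of it is a period of the curve; moreover all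
  these translations for one curve `f` are rational multiples of one complex number. -/
  functional : ∀ f : ℂ → ℙ ℂ (Fin (N + 1) → ℂ), HolMap f → LiesIn F f → (∃ z w, f z ≠ f w) →
    ∃ b : ℂ, ∀ σ, FunctionalCurve σ f →
      ∃ r : ℚ, (∀ z, σ z = z + r * b) ∧ ∃ k : ℕ, 0 < k ∧ ∀ z, f (z + k * (r * b)) = f z

theorem lies_inV {F : ι → MvPolynomial (Fin (N + 1)) ℂ} {f : ℂ → ℙ ℂ (Fin (N + 1) → ℂ)}
    (h : LiesIn F f) (z : ℂ) : InV (Ideal.span (Set.range F)) (f z) := by
  intro G hG _
  have h1 : Ideal.span (Set.range F) ≤ RingHom.ker (eval (f z).rep) := by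
    rw [Ideal.span_le]
    rintro _ ⟨i, rfl⟩
    exact h i z
  exact h1 hG

theorem hyperbolic_of {F : ι → MvPolynomial (Fin (N + 1)) ℂ}
    (hF : ∀ i, ∃ n, (F i).IsHomogeneous n) (h : Pool.Agent.TH182.VI.TorusConst F) :
    Hyperbolic F := by
  have hT : TorusMapsIn (Ideal.span (Set.range F)) (⊤ : Ideal (MvPolynomial (Fin (N + 1)) ℂ)) := by
    intro ω₁ ω₂ hω g hg h1 h2 hgX hgnc
    exfalso
    obtain ⟨z, w, hzw⟩ := hgnc
    exact hzw (h hω (Pool.Agent.TH182.VG.holo_of_holMap hg) h1 h2
      (fun i z => hgX z (F i) (Ideal.subset_span ⟨i, rfl⟩) (hF i)) z w)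
  refine ⟨?_, ?_, ?_⟩
  · rintro f hf ⟨B, hB1, h', hl, hr⟩ hX z w
    by_contra hzw
    have h5 := iter_main hT hB1 hf hl hr (lies_inV hX) ⟨z, w, hzw⟩ z 1 Submodule.mem_top
      ⟨0, isHomogeneous_one _ _⟩
    rw [map_one] at h5
    exact one_ne_zero h5
  · rintro f hf ⟨B, ψ, hB1, hψ, hd', hn', h', hl, hr⟩ hX z w
    by_contra hzw
    have h5 := tow_main hT hB1 hψ hd' hn' hf hl hr (lies_inV hX) ⟨z, w, hzw⟩ z 1
      Submodule.mem_top ⟨0, isHomogeneous_one _ _⟩
    rw [map_one] at h5
    exact one_ne_zero h5
  · intro f hf hX hnc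
    refine (Pool.Agent.Y189.DC.final (Ideal.span (Set.range F)) ⊤).1 hT f hf (lies_inV hX)
      ⟨0, fun h5 => ?_⟩ hnc
    have h6 := h5 1 Submodule.mem_top ⟨0, isHomogeneous_one _ _⟩
    rw [map_one] at h6
    exact one_ne_zero h6

/-- the coefficients of a family of forms -/
def coefficients {q : ℕ} (d : Fin q → ℕ) (F : Fin q → MvPolynomial (Fin (N + 1)) ℂ) :
    (i : Fin q) × {α : Fin (N + 1) →₀ ℕ // α.degree = d i} → ℂ :=
  fun x => coeff x.2.1 (F x.1)

/-- Let `X` be a closed subset of the projective space of dimension at most `m`, given by forms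
`G i` (the ring of homogeneous coordinates has transcendence degree at most `m + 1`), and let
`d 1, …, d q` be degrees with `∑ d i + q ≥ 2 m + 1`. There is a countable set of nonzero polynomials
in the coefficients of families of forms `F i` of degrees `d i` such that for all forms `F i` at
which none of these polynomials vanishes the entire curves of the three classes in the set of the
points of `X` on all `F i = 0` are constant (for functional equations: constant or periodic, see
`Hyperbolic`). There is a countable subfield `k₁` of `ℂ`, depending only on `X`, such that this holds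
for all degrees and all forms `F i` whose coefficients together are algebraically independent over
`k₁`. -/
theorem result {N m : ℕ} {κ : Type} (G : κ → MvPolynomial (Fin (N + 1)) ℂ)
    (hG : ∀ i, ∃ n, (G i).IsHomogeneous n)
    (hdim : Algebra.trdeg ℂ (MvPolynomial (Fin (N + 1)) ℂ ⧸ Ideal.span (Set.range G)) ≤ m + 1) :
    (∀ (q : ℕ) (d : Fin q → ℕ), 2 * m + 1 ≤ ∑ i, d i + q →
      ∃ Ps : Set (MvPolynomial ((i : Fin q) × {α : Fin (N + 1) →₀ ℕ // α.degree = d i}) ℂ),
        Ps.Countable ∧ 0 ∉ Ps ∧
        ∀ F : Fin q → MvPolynomial (Fin (N + 1)) ℂ, (∀ i, (F i).IsHomogeneous (d i)) →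
          (∀ P ∈ Ps, eval (coefficients d F) P ≠ 0) → Hyperbolic (Sum.elim G F)) ∧
    ∃ k₁ : Subfield ℂ, Countable k₁ ∧ ∀ (q : ℕ) (d : Fin q → ℕ), 2 * m + 1 ≤ ∑ i, d i + q →
      ∀ F : Fin q → MvPolynomial (Fin (N + 1)) ℂ, (∀ i, (F i).IsHomogeneous (d i)) →
        AlgebraicIndependent k₁ (coefficients d F) → Hyperbolic (Sum.elim G F) := by
  obtain ⟨k₁, hk₁, hmain⟩ := Pool.Agent.TH182.VI.torus_const G hG hdim
  have key : ∀ (q : ℕ) (d : Fin q → ℕ), 2 * m + 1 ≤ ∑ i, d i + q →
      ∀ F : Fin q → MvPolynomial (Fin (N + 1)) ℂ, (∀ i, (F i).IsHomogeneous (d i)) →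
        AlgebraicIndependent k₁ (coefficients d F) → Hyperbolic (Sum.elim G F) := by
    intro q d hd F hF hind
    have h1 : Pool.Agent.TH182.VI.TorusConst (Sum.elim G F) := hmain q d F hF hind hd
    refine hyperbolic_of ?_ h1
    rintro (i | i)
    · exact hG i
    · exact ⟨d i, hF i⟩
  refine ⟨fun q d hd => ?_, k₁, hk₁, key⟩
  obtain ⟨Ps, h1, h2, h3⟩ := Pool.Agent.TH182.VI.very_general (N := N) k₁ d
  exact ⟨Ps, h1, h2, fun F hF hP => key q d hd F hF (h3 F hP)⟩

end Pool.Agent.Results.MP_8d161d_ag.TranscendentalClasses
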